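import Mathlib

/-!
# Weighted angle reduction for linear codes: Poisson summation and the key inequality

`K` is a linear code of length `n` over the field of two elements, given as a finite set of words,
`C` is its dual code.
-/

set_option autoImplicit false

namespace Pool.Agent.Lib.MP_0430e4_lc.AR

open Finset
open scoped ComplexConjugate

/-- Words of length `n`. -/
abbrev Wd (n : ℕ) := Fin n → ZMod 2

/-- The sign `(-1)^a`. -/
def sg {R : Type*} [One R] [Neg R] (a : ZMod 2) : R := if a = 0 then 1 else -1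

/-- Linear codes, as finite sets. -/
def IsLin {n : ℕ} (K : Finset (Wd n)) : Prop := 0 ∈ K ∧ ∀ x ∈ K, ∀ y ∈ K, x + y ∈ K

/-- `C` is the dual of `K`. -/
def IsDual {n : ℕ} (K C : Finset (Wd n)) : Prop := ∀ v, v ∈ C ↔ ∀ x ∈ K, x ⬝ᵥ v = 0

section

variable {R : Type*} [Field R] [CharZero R]

theorem z01 (a : ZMod 2) : a = 0 ∨ a = 1 := by
  revert a; decide

theorem oneone : (1 : ZMod 2) + 1 = 0 := by decide

theorem univ2 : (univ : Finset (ZMod 2)) = {0, 1} := by decide

theorem sg0 : (sg (0 : ZMod 2) : R) = 1 := by simp [sg]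
theorem sg1 : (sg (1 : ZMod 2) : R) = -1 := by simp [sg]

theorem sg_add (a b : ZMod 2) : (sg (a + b) : R) = sg a * sg b := by
  rcases z01 a with rfl | rfl <;> rcases z01 b with rfl | rfl <;> simp [sg, oneone]

theorem sg_sum {ι : Type*} (s : Finset ι) (f : ι → ZMod 2) :
    (sg (∑ i ∈ s, f i) : R) = ∏ i ∈ s, sg (f i) := by
  classical
  induction s using Finset.induction_on with
  | empty => simp [sg0]
  | insert a s ha ih => rw [Finset.sum_insert ha, Finset.prod_insert ha, sg_add, ih]

/-- Fourier transform on the group of two elements. -/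
def fh (f : ZMod 2 → R) (c : ZMod 2) : R := (f 0 + sg c * f 1) / 2

theorem fh_inv (f : ZMod 2 → R) (x : ZMod 2) : f x = ∑ c : ZMod 2, fh f c * sg (c * x) := by
  have h2 : (2 : R) ≠ 0 := two_ne_zero
  rw [univ2, Finset.sum_pair (by decide)]
  rcases z01 x with rfl | rfl <;> simp only [fh, sg0, sg1, mul_zero, zero_mul, mul_one] <;>
    field_simp <;> ring

variable {n : ℕ}

theorem prod_eq (f : Fin n → ZMod 2 → R) (x : Wd n) :
    ∏ i, f i (x i) = ∑ v : Wd n, (∏ i, fh (f i) (v i)) * sg (x ⬝ᵥ v) := by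
  have h1 : ∏ i, f i (x i) = ∏ i, ∑ c : ZMod 2, fh (f i) c * sg (c * x i) :=
    Finset.prod_congr rfl fun i _ => fh_inv (f i) (x i)
  rw [h1, Finset.prod_univ_sum, Fintype.piFinset_univ]
  apply Finset.sum_congr rfl
  intro v _
  rw [Finset.prod_mul_distrib]
  congr 1
  unfold dotProduct
  rw [sg_sum]
  exact Finset.prod_congr rfl fun i _ => by rw [mul_comm]

theorem sum_sg {K : Finset (Wd n)} (hK : IsLin K) {C : Finset (Wd n)} (hC : IsDual K C) (v : Wd n) :
    (∑ x ∈ K, sg (x ⬝ᵥ v) : R) = if v ∈ C then (K.card : R) else 0 := by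
  split_ifs with h
  · rw [Finset.sum_congr rfl (g := fun _ => (1 : R)) fun x hx => by rw [(hC v).1 h x hx, sg0]]
    simp
  · rw [hC v] at h
    push Not at h
    obtain ⟨x0, hx0, h1⟩ := h
    have h2 : x0 ⬝ᵥ v = 1 := by
      rcases z01 (x0 ⬝ᵥ v) with h2 | h2
      · exact absurd h2 h1
      · exact h2
    have h3 : (∑ x ∈ K, sg (x ⬝ᵥ v) : R) = ∑ x ∈ K, sg ((x + x0) ⬝ᵥ v) := by
      apply Finset.sum_nbij' (fun x => x + x0) (fun x => x + x0)
      · intro x hx; exact hK.2 x hx x0 hx0
      · intro x hx; exact hK.2 x hx x0 hx0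
      · intro x _
        funext i
        simp only [Pi.add_apply]
        rw [add_assoc]
        rcases z01 (x0 i) with h | h <;> rw [h] <;> simp [oneone]
      · intro x _
        funext i
        simp only [Pi.add_apply]
        rw [add_assoc]
        rcases z01 (x0 i) with h | h <;> rw [h] <;> simp [oneone]
      · intro x _
        congr 2
        funext i
        simp only [Pi.add_apply]
        rw [add_assoc]
        rcases z01 (x0 i) with h | h <;> rw [h] <;> simp [oneone]
    have h4 : (∑ x ∈ K, sg ((x + x0) ⬝ᵥ v) : R) = - ∑ x ∈ K, sg (x ⬝ᵥ v) := by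
      rw [← Finset.sum_neg_distrib]
      apply Finset.sum_congr rfl
      intro x _
      rw [add_dotProduct, sg_add, h2, sg1]
      ring
    rw [h4] at h3
    have h5 : (2 : R) * ∑ x ∈ K, sg (x ⬝ᵥ v) = 0 := by
      linear_combination h3
    exact (mul_eq_zero.1 h5).resolve_left two_ne_zero

/-- **Poisson summation** for product functions. -/
theorem poisson {K : Finset (Wd n)} (hK : IsLin K) {C : Finset (Wd n)} (hC : IsDual K C)
    (f : Fin n → ZMod 2 → R) :
    ∑ x ∈ K, ∏ i, f i (x i) = K.card * ∑ c ∈ C, ∏ i, fh (f i) (c i) := by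
  have h1 : ∑ x ∈ K, ∏ i, f i (x i) =
      ∑ v : Wd n, (∏ i, fh (f i) (v i)) * ∑ x ∈ K, sg (x ⬝ᵥ v) := by
    rw [Finset.sum_congr rfl fun x _ => prod_eq f x, Finset.sum_comm]
    exact Finset.sum_congr rfl fun v _ => by rw [Finset.mul_sum]
  rw [h1, Finset.mul_sum]
  have h2 : ∀ v : Wd n, (∏ i, fh (f i) (v i)) * ∑ x ∈ K, sg (x ⬝ᵥ v) =
      if v ∈ C then (K.card : R) * ∏ i, fh (f i) (v i) else 0 := by
    intro v
    rw [sum_sg hK hC v]
    split_ifs
    · ring
    · ring
  rw [Finset.sum_congr rfl fun v _ => h2 v, ← Finset.sum_filter]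
  apply Finset.sum_congr _ fun _ _ => rfl
  ext v
  simp

theorem isLin_dual {K C : Finset (Wd n)} (hC : IsDual K C) : IsLin C := by
  refine ⟨(hC 0).2 fun x _ => by simp, fun x hx y hy => (hC _).2 fun u hu => ?_⟩
  rw [dotProduct_add, (hC x).1 hx u hu, (hC y).1 hy u hu, add_zero]

end

variable {n : ℕ}

/-- The sum over the dual code of a product function. -/
def T (C : Finset (Wd n)) (w : Fin n → ZMod 2 → ℝ) : ℝ := ∑ c ∈ C, ∏ i, w i (c i)

theorem T_nonneg (C : Finset (Wd n)) {w : Fin n → ZMod 2 → ℝ} (hw : ∀ i c, 0 ≤ w i c) :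
    0 ≤ T C w := Finset.sum_nonneg fun c _ => Finset.prod_nonneg fun i _ => hw i (c i)

/-- The condition on the weights under which the key inequality holds. -/
def Split (a0 a1 w w' : ZMod 2 → ℝ) : Prop :=
  ∀ b c, |(a0 c + sg b * a1 c) / 2| ≤ w b * w' (b + c)

theorem add_add_self (x y : Wd n) : x + y + y = x := by
  funext i
  simp only [Pi.add_apply]
  rw [add_assoc]
  rcases z01 (y i) with h | h <;> rw [h] <;> simp [oneone]

/-- **Key inequality.** -/
theorem key {K : Finset (Wd n)} (hK : IsLin K) {C : Finset (Wd n)} (hC : IsDual K C)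
    (a0 a1 w w' : Fin n → ZMod 2 → ℝ) (h : ∀ i, Split (a0 i) (a1 i) (w i) (w' i)) :
    ∑ x ∈ K, T C (fun i => if x i = 0 then a0 i else a1 i) ≤ K.card * (T C w * T C w') := by
  have hCl := isLin_dual hC
  have h1 : ∑ x ∈ K, T C (fun i => if x i = 0 then a0 i else a1 i) =
      ∑ c ∈ C, ∑ x ∈ K, ∏ i, (fun e : ZMod 2 => (if e = 0 then a0 i (c i) else a1 i (c i))) (x i) := by
    unfold T
    rw [Finset.sum_comm]
    apply Finset.sum_congr rfl
    intro c _
    apply Finset.sum_congr rfl
    intro x _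
    apply Finset.prod_congr rfl
    intro i _
    by_cases hx : x i = 0 <;> simp [hx]
  rw [h1]
  have h2 : ∀ c ∈ C, ∑ x ∈ K, ∏ i,
      (fun e : ZMod 2 => (if e = 0 then a0 i (c i) else a1 i (c i))) (x i) ≤
      K.card * ∑ b ∈ C, (∏ i, w i (b i)) * ∏ i, w' i ((b + c) i) := by
    intro c _
    rw [poisson hK hC (fun i (e : ZMod 2) => (if e = 0 then a0 i (c i) else a1 i (c i)))]
    apply mul_le_mul_of_nonneg_left _ (Nat.cast_nonneg _)
    apply Finset.sum_le_sum
    intro b _
    rw [← Finset.prod_mul_distrib]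
    refine (le_abs_self _).trans ?_
    rw [Finset.abs_prod]
    apply Finset.prod_le_prod
    · intro i _; exact abs_nonneg _
    · intro i _
      have h3 := h i (b i) (c i)
      simpa [fh] using h3
  refine (Finset.sum_le_sum h2).trans ?_
  rw [← Finset.mul_sum]
  apply mul_le_mul_of_nonneg_left _ (Nat.cast_nonneg _)
  rw [Finset.sum_comm]
  have h4 : ∀ b ∈ C, ∑ c ∈ C, (∏ i, w i (b i)) * ∏ i, w' i ((b + c) i) =
      (∏ i, w i (b i)) * T C w' := by
    intro b hb
    rw [← Finset.mul_sum]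
    congr 1
    unfold T
    apply Finset.sum_nbij' (fun c => b + c) (fun c => b + c)
    · intro c hc; exact hCl.2 b hb c hc
    · intro c hc; exact hCl.2 b hb c hc
    · intro c _
      rw [add_comm b (b + c), add_comm b c, add_add_self]
    · intro c _
      rw [add_comm b (b + c), add_comm b c, add_add_self]
    · intro c _; rfl
  rw [Finset.sum_congr rfl h4, ← Finset.sum_mul]
  exact le_of_eq rfl

end Pool.Agent.Lib.MP_0430e4_lc.AR
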