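import Pool.Agent.Lib.MP_0430e4_lc.AR.Base

/-!
# Weighted angle reduction for linear codes: the chain of Cauchy-Schwarz inequalities
-/

set_option autoImplicit false

namespace Pool.Agent.Lib.MP_0430e4_lc.AR

open Finset
open scoped ComplexConjugate

variable {n : ℕ}

/-- The derivative of a function on the group of two elements. -/
noncomputable def D1 (h : ZMod 2) (f : ZMod 2 → ℂ) : ZMod 2 → ℂ := fun x => f (x + h) * conj (f x)

/-- The derivative of a product function. -/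
noncomputable def Dd (h : Wd n) (f : Fin n → ZMod 2 → ℂ) : Fin n → ZMod 2 → ℂ :=
  fun i => D1 (h i) (f i)

/-- The modulus of the sum of a product function over `K`. -/
noncomputable def S (K : Finset (Wd n)) (f : Fin n → ZMod 2 → ℂ) : ℝ := ‖∑ x ∈ K, ∏ i, f i (x i)‖

/-- The sum of the modulus of a product function over `K`. -/
noncomputable def D (K : Finset (Wd n)) (f : Fin n → ZMod 2 → ℂ) : ℝ := ∑ x ∈ K, ∏ i, ‖f i (x i)‖

theorem S_nonneg (K : Finset (Wd n)) (f : Fin n → ZMod 2 → ℂ) : 0 ≤ S K f := norm_nonneg _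

theorem D_nonneg (K : Finset (Wd n)) (f : Fin n → ZMod 2 → ℂ) : 0 ≤ D K f :=
  Finset.sum_nonneg fun x _ => Finset.prod_nonneg fun i _ => norm_nonneg _

theorem S_le_D (K : Finset (Wd n)) (f : Fin n → ZMod 2 → ℂ) : S K f ≤ D K f := by
  unfold S D
  refine (norm_sum_le _ _).trans ?_
  exact Finset.sum_le_sum fun x _ => (norm_prod _ _).le

theorem shift_sum {M : Type*} [AddCommMonoid M] {K : Finset (Wd n)} (hK : IsLin K) {x : Wd n}
    (hx : x ∈ K) (g : Wd n → M) : ∑ y ∈ K, g y = ∑ y ∈ K, g (x + y) := by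
  symm
  apply Finset.sum_nbij' (fun c => x + c) (fun c => x + c)
  · intro c hc; exact hK.2 x hx c hc
  · intro c hc; exact hK.2 x hx c hc
  · intro c _
    rw [add_comm x (x + c), add_comm x c, add_add_self]
  · intro c _
    rw [add_comm x (x + c), add_comm x c, add_add_self]
  · intro c _; rfl

theorem S_sq_le {K : Finset (Wd n)} (hK : IsLin K) (f : Fin n → ZMod 2 → ℂ) :
    S K f ^ 2 ≤ ∑ h ∈ K, S K (Dd h f) := by
  have h1 : ((S K f ^ 2 : ℝ) : ℂ) = ∑ h ∈ K, ∑ y ∈ K, ∏ i, Dd h f i (y i) := by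
    have h2 : ((S K f ^ 2 : ℝ) : ℂ) =
        conj (∑ y ∈ K, ∏ i, f i (y i)) * (∑ x ∈ K, ∏ i, f i (x i)) := by
      rw [mul_comm, Complex.mul_conj, Complex.normSq_eq_norm_sq]
      rfl
    rw [h2, map_sum, Finset.sum_mul_sum]
    rw [Finset.sum_congr rfl fun y hy => shift_sum hK hy
      (fun x => conj (∏ i, f i (y i)) * ∏ i, f i (x i)), Finset.sum_comm]
    apply Finset.sum_congr rfl
    intro h _
    apply Finset.sum_congr rfl
    intro y _
    rw [map_prod, ← Finset.prod_mul_distrib]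
    apply Finset.prod_congr rfl
    intro i _
    unfold Dd D1
    rw [Pi.add_apply]
    ring
  have h3 : S K f ^ 2 = ‖((S K f ^ 2 : ℝ) : ℂ)‖ := by
    rw [Complex.norm_real, Real.norm_of_nonneg (sq_nonneg _)]
  rw [h3, h1]
  exact norm_sum_le _ _

theorem D_sq {K : Finset (Wd n)} (hK : IsLin K) (f : Fin n → ZMod 2 → ℂ) :
    D K f ^ 2 = ∑ h ∈ K, D K (Dd h f) := by
  unfold D
  rw [sq, Finset.sum_mul_sum]
  rw [Finset.sum_congr rfl fun y hy => shift_sum hK hy
      (fun x => (∏ i, ‖f i (y i)‖) * ∏ i, ‖f i (x i)‖), Finset.sum_comm]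
  apply Finset.sum_congr rfl
  intro h _
  apply Finset.sum_congr rfl
  intro y _
  rw [← Finset.prod_mul_distrib]
  apply Finset.prod_congr rfl
  intro i _
  unfold Dd D1
  rw [norm_mul, RCLike.norm_conj, Pi.add_apply, mul_comm]

/-- `w` bounds all `j`-th derivatives of `f`, in the sense needed for the chain. -/
def Maj : ℕ → (ZMod 2 → ℂ) → (ZMod 2 → ℝ) → Prop
  | 0, f, w => ∀ c, ‖fh f c‖ ≤ w c
  | j + 1, f, w => (∀ c, 0 ≤ w c) ∧ ∃ a0 a1 : ZMod 2 → ℝ,
      Maj j (D1 0 f) a0 ∧ Maj j (D1 1 f) a1 ∧ Split a0 a1 w w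

theorem Maj_nonneg {j : ℕ} {f : ZMod 2 → ℂ} {w : ZMod 2 → ℝ} (h : Maj j f w) (c : ZMod 2) :
    0 ≤ w c := by
  cases j with
  | zero => exact (norm_nonneg _).trans (h c)
  | succ j => exact h.1 c

theorem S_le_T {K : Finset (Wd n)} (hK : IsLin K) {C : Finset (Wd n)} (hC : IsDual K C)
    (f : Fin n → ZMod 2 → ℂ) (w : Fin n → ZMod 2 → ℝ) (h : ∀ i, Maj 0 (f i) (w i)) :
    S K f ≤ K.card * T C w := by
  unfold S T
  rw [poisson hK hC f, norm_mul, Complex.norm_natCast]
  apply mul_le_mul_of_nonneg_left _ (Nat.cast_nonneg _)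
  refine (norm_sum_le _ _).trans ?_
  apply Finset.sum_le_sum
  intro c _
  refine (norm_prod _ _).le.trans ?_
  exact Finset.prod_le_prod (fun i _ => norm_nonneg _) fun i _ => h i (c i)

/-- An inequality for sums: if `s^(m+1) ≤ d^m x` termwise, the same holds for the sums. -/
theorem holder {ι : Type*} (A : Finset ι) (m : ℕ) (s d x : ι → ℝ) (hs : ∀ a ∈ A, 0 ≤ s a)
    (hd : ∀ a ∈ A, s a ≤ d a) (hx : ∀ a ∈ A, 0 ≤ x a)
    (h : ∀ a ∈ A, s a ^ (m + 1) ≤ d a ^ m * x a) :
    (∑ a ∈ A, s a) ^ (m + 1) ≤ (∑ a ∈ A, d a) ^ m * ∑ a ∈ A, x a := by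
  have hd0 : ∀ a ∈ A, 0 ≤ d a := fun a ha => (hs a ha).trans (hd a ha)
  rcases (Finset.sum_nonneg hd0).eq_or_lt with h0 | h0
  · have h1 : ∑ a ∈ A, s a = 0 :=
      le_antisymm ((Finset.sum_le_sum hd).trans h0.symm.le) (Finset.sum_nonneg hs)
    rw [h1, zero_pow (Nat.succ_ne_zero m)]
    exact mul_nonneg (pow_nonneg (Finset.sum_nonneg hd0) _) (Finset.sum_nonneg hx)
  · set E := ∑ a ∈ A, d a with hE
    have h1 := Real.pow_arith_mean_le_arith_mean_pow A (fun a => d a / E) (fun a => s a / d a)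
      (fun a ha => div_nonneg (hd0 a ha) h0.le)
      (by rw [← Finset.sum_div, ← hE, div_self h0.ne'])
      (fun a ha => div_nonneg (hs a ha) (hd0 a ha)) (m + 1)
    have h2 : ∑ a ∈ A, d a / E * (s a / d a) = (∑ a ∈ A, s a) / E := by
      rw [Finset.sum_div]
      apply Finset.sum_congr rfl
      intro a ha
      rcases (hd0 a ha).eq_or_lt with h3 | h3
      · have h4 : s a = 0 := le_antisymm ((hd a ha).trans h3.symm.le) (hs a ha)
        rw [← h3, h4]; simp
      · field_simp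
    have h3 : ∑ a ∈ A, d a / E * (s a / d a) ^ (m + 1) ≤ (∑ a ∈ A, x a) / E := by
      rw [Finset.sum_div]
      apply Finset.sum_le_sum
      intro a ha
      rcases (hd0 a ha).eq_or_lt with h3 | h3
      · rw [← h3, zero_div, zero_mul]
        exact div_nonneg (hx a ha) h0.le
      · have h4 := h a ha
        have h5 : (s a / d a) ^ (m + 1) ≤ x a / d a := by
          rw [div_pow, div_le_div_iff₀ (pow_pos h3 _) h3]
          calc s a ^ (m + 1) * d a ≤ d a ^ m * x a * d a := mul_le_mul_of_nonneg_right h4 h3.le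
            _ = x a * d a ^ (m + 1) := by ring
        calc d a / E * (s a / d a) ^ (m + 1) ≤ d a / E * (x a / d a) :=
              mul_le_mul_of_nonneg_left h5 (div_nonneg h3.le h0.le)
          _ = x a / E := by field_simp
    rw [h2] at h1
    have h4 := h1.trans h3
    rw [div_pow, div_le_div_iff₀ (pow_pos h0 _) h0] at h4
    have h5 : (∑ a ∈ A, s a) ^ (m + 1) * E ≤ (E ^ m * ∑ a ∈ A, x a) * E := by
      refine h4.trans (le_of_eq ?_)
      ring
    exact le_of_mul_le_mul_right h5 h0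

theorem termwise {s d x : ℝ} (m : ℕ) (hs : 0 ≤ s) (hd : s ≤ d) (hx : 0 ≤ x)
    (h : s ^ (m + 2) ≤ d ^ m * x ^ 2) : s ^ (m + 2) ≤ d ^ (m + 1) * x := by
  rcases le_total d x with h1 | h1
  · calc s ^ (m + 2) ≤ d ^ (m + 2) := pow_le_pow_left₀ hs hd _
      _ = d ^ (m + 1) * d := by ring
      _ ≤ d ^ (m + 1) * x := mul_le_mul_of_nonneg_left h1 (pow_nonneg (hs.trans hd) _)
  · calc s ^ (m + 2) ≤ d ^ m * x ^ 2 := h
      _ = d ^ m * x * x := by ring
      _ ≤ d ^ m * d * x := by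
          apply mul_le_mul_of_nonneg_right _ hx
          exact mul_le_mul_of_nonneg_left h1 (pow_nonneg (hs.trans hd) _)
      _ = d ^ (m + 1) * x := by ring

/-- **The chain.** -/
theorem chain {K : Finset (Wd n)} (hK : IsLin K) {C : Finset (Wd n)} (hC : IsDual K C) (j : ℕ)
    (f : Fin n → ZMod 2 → ℂ) (w w' : Fin n → ZMod 2 → ℝ) (hw : ∀ i c, 0 ≤ w i c)
    (hw' : ∀ i c, 0 ≤ w' i c)
    (h : ∀ i, ∃ a0 a1 : ZMod 2 → ℝ,
      Maj j (D1 0 (f i)) a0 ∧ Maj j (D1 1 (f i)) a1 ∧ Split a0 a1 (w i) (w' i)) :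
    S K f ^ (2 ^ (j + 1)) ≤
      D K f ^ (2 ^ (j + 1) - 2) * ((K.card : ℝ) ^ 2 * (T C w * T C w')) := by
  induction j generalizing f w w' with
  | zero =>
    choose a0 a1 h0 h1 hS using h
    have hk := key hK hC a0 a1 w w' hS
    have h2 : ∀ x ∈ K, S K (Dd x f) ≤ K.card * T C (fun i => if x i = 0 then a0 i else a1 i) := by
      intro x _
      apply S_le_T hK hC
      intro i
      unfold Dd
      rcases z01 (x i) with hx | hx
      · rw [hx]; simpa using h0 i
      · rw [hx]; simpa using h1 i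
    have h3 := (S_sq_le hK f).trans (Finset.sum_le_sum h2)
    rw [← Finset.mul_sum] at h3
    have h4 := mul_le_mul_of_nonneg_left hk (Nat.cast_nonneg (α := ℝ) K.card)
    have h5 := h3.trans h4
    simp only [zero_add, pow_one]
    norm_num
    calc S K f ^ 2 ≤ _ := h5
      _ = _ := by ring
  | succ j ih =>
    choose a0 a1 h0 h1 hS using h
    have hk := key hK hC a0 a1 w w' hS
    obtain ⟨m, hm⟩ : ∃ m, 2 ^ (j + 1) = m + 2 := by
      have : 2 ≤ 2 ^ (j + 1) := by
        calc 2 = 2 ^ 1 := by norm_num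
          _ ≤ 2 ^ (j + 1) := Nat.pow_le_pow_right (by norm_num) (by omega)
      exact ⟨2 ^ (j + 1) - 2, by omega⟩
    have hnn : ∀ (x : Wd n) (i : Fin n) (c : ZMod 2), 0 ≤ (if x i = 0 then a0 i else a1 i) c := by
      intro x i c
      split_ifs
      · exact Maj_nonneg (h0 i) c
      · exact Maj_nonneg (h1 i) c
    have h2 : ∀ x ∈ K, S K (Dd x f) ^ (m + 2) ≤ D K (Dd x f) ^ (m + 1) *
        (K.card * T C (fun i => if x i = 0 then a0 i else a1 i)) := by
      intro x _
      have h3 := ih (Dd x f) (fun i => if x i = 0 then a0 i else a1 i)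
        (fun i => if x i = 0 then a0 i else a1 i) (hnn x) (hnn x) (by
          intro i
          unfold Dd
          rcases z01 (x i) with hx | hx
          · rw [hx]; simpa using (h0 i).2
          · rw [hx]; simpa using (h1 i).2)
      rw [hm] at h3
      apply termwise m (S_nonneg _ _) (S_le_D _ _)
        (mul_nonneg (Nat.cast_nonneg _) (T_nonneg C (hnn x)))
      refine h3.trans (le_of_eq ?_)
      rw [Nat.add_sub_cancel]
      ring
    have h3 := holder K (m + 1) (fun x => S K (Dd x f)) (fun x => D K (Dd x f))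
      (fun x => K.card * T C (fun i => if x i = 0 then a0 i else a1 i))
      (fun x _ => S_nonneg _ _) (fun x _ => S_le_D _ _)
      (fun x _ => mul_nonneg (Nat.cast_nonneg _) (T_nonneg C (hnn x))) h2
    have h4 : S K f ^ (2 ^ (j + 1 + 1)) ≤ (∑ x ∈ K, S K (Dd x f)) ^ (m + 2) := by
      rw [pow_succ 2 (j + 1), hm, mul_comm, pow_mul]
      exact pow_le_pow_left₀ (sq_nonneg _) (S_sq_le hK f) _
    have h5 : (∑ x ∈ K, D K (Dd x f)) ^ (m + 1) = D K f ^ (2 ^ (j + 1 + 1) - 2) := by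
      rw [← D_sq hK, ← pow_mul]
      congr 1
      rw [pow_succ 2 (j + 1), hm]
      omega
    rw [h5] at h3
    refine h4.trans (h3.trans ?_)
    apply mul_le_mul_of_nonneg_left _ (pow_nonneg (D_nonneg K f) _)
    rw [← Finset.mul_sum]
    calc _ ≤ (K.card : ℝ) * (K.card * (T C w * T C w')) :=
          mul_le_mul_of_nonneg_left hk (Nat.cast_nonneg _)
      _ = _ := by ring

end Pool.Agent.Lib.MP_0430e4_lc.AR
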