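import Pool.Agent.Lib.MP_0430e4_lc.AR.State

/-!
# Weighted angle reduction for linear codes: the inequality for weight enumerators
-/

set_option autoImplicit false

namespace Pool.Agent.Lib.MP_0430e4_lc.AR

open Finset
open scoped ComplexConjugate

variable {n : ℕ}

theorem prod_ite_pow {R : Type*} [CommSemiring R] (z : R) (x : Wd n) :
    ∏ i, (if x i = 0 then 1 else z) = z ^ hammingNorm x := by
  rw [Finset.prod_ite, Finset.prod_const_one, one_mul, Finset.prod_const]
  rfl

/-- The function of one coordinate whose products give `z ^ wt x`. -/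
noncomputable def fz (z : ℂ) : ZMod 2 → ℂ := fun x => if x = 0 then 1 else z

theorem S_fz (K : Finset (Wd n)) (z : ℂ) :
    S K (fun _ => fz z) = ‖∑ x ∈ K, z ^ hammingNorm x‖ := by
  unfold S fz
  rw [Finset.sum_congr rfl fun x _ => prod_ite_pow z x]

theorem D_fz (K : Finset (Wd n)) (z : ℂ) :
    D K (fun _ => fz z) = ∑ x ∈ K, ‖z‖ ^ hammingNorm x := by
  unfold D
  apply Finset.sum_congr rfl
  intro x _
  rw [← norm_prod]
  unfold fz
  rw [prod_ite_pow, norm_pow]

theorem T_scale (C : Finset (Wd n)) (M σ : ℝ) :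
    T C (fun _ b => if b = 0 then M else M * σ) = M ^ n * ∑ c ∈ C, σ ^ hammingNorm c := by
  unfold T
  rw [Finset.mul_sum]
  apply Finset.sum_congr rfl
  intro c _
  have h1 : ∀ i, (if c i = 0 then M else M * σ) = M * (if c i = 0 then 1 else σ) := by
    intro i
    split_ifs
    · ring
    · rfl
  rw [Finset.prod_congr rfl fun i _ => h1 i, Finset.prod_mul_distrib, prod_ite_pow,
    Finset.prod_const, Finset.card_univ, Fintype.card_fin]

theorem T_one (C : Finset (Wd n)) (σ : ℝ) :
    T C (fun _ b => if b = 0 then 1 else σ) = ∑ c ∈ C, σ ^ hammingNorm c := by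
  have := T_scale C 1 σ
  simpa using this

/-- **Weighted angle reduction** for weight enumerators of linear codes. -/
theorem angle {K : Finset (Wd n)} (hK : IsLin K) {C : Finset (Wd n)} (hC : IsDual K C) (j : ℕ)
    (v θ y σ : ℝ) (hv : 0 ≤ v) (hy : 0 ≤ y) (hy' : 2 ^ j * y ≤ Real.pi / 2)
    (hc : |Real.cos (2 ^ j * θ)| = Real.cos (2 ^ j * y))
    (hs : |Real.sin (2 ^ j * θ)| = Real.sin (2 ^ j * y)) (hσ : 0 ≤ σ)
    (h1 : |1 - v ^ 2| + 2 * v * Real.sin y ≤ σ * (1 + v ^ 2 + 2 * v * Real.cos y))
    (h2 : 1 + v ^ 2 - 2 * v * Real.cos y ≤ σ ^ 2 * (1 + v ^ 2 + 2 * v * Real.cos y)) :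
    ‖∑ x ∈ K, ((v : ℂ) * (Real.cos θ + Real.sin θ * Complex.I)) ^ hammingNorm x‖ ^ (2 ^ (j + 1)) ≤
      (∑ x ∈ K, v ^ hammingNorm x) ^ (2 ^ (j + 1) - 2) * ((K.card : ℝ) ^ 2 *
        (((1 + v ^ 2 + 2 * v * Real.cos y) / 4) ^ n * (∑ c ∈ C, σ ^ hammingNorm c) ^ 2)) := by
  set z : ℂ := (v : ℂ) * (Real.cos θ + Real.sin θ * Complex.I) with hz
  have hnz : ‖z‖ = v := by
    rw [hz, norm_mul, Complex.norm_real, Real.norm_of_nonneg hv]
    have : ‖(Real.cos θ + Real.sin θ * Complex.I : ℂ)‖ = 1 := by
      rw [Complex.ofReal_cos, Complex.ofReal_sin]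
      exact Complex.norm_cos_add_sin_mul_I θ
    rw [this, mul_one]
  have hy2 : y ≤ Real.pi / 2 := by
    have h3 : (1 : ℝ) ≤ 2 ^ j := one_le_pow₀ (by norm_num)
    nlinarith
  have hcos : 0 ≤ Real.cos y := Real.cos_nonneg_of_neg_pi_div_two_le_of_le (by linarith) hy2
  have hsin : 0 ≤ Real.sin y := Real.sin_nonneg_of_nonneg_of_le_pi hy (by linarith [Real.pi_pos])
  have hcos1 : Real.cos y ≤ 1 := Real.cos_le_one y
  set M : ℝ := (1 + v ^ 2 + 2 * v * Real.cos y) / 4 with hM
  have hM0 : 0 < M := by positivity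
  have hch := chain hK hC j (fun _ => fz z) (fun _ b => if b = 0 then M else M * σ)
    (fun _ b => if b = 0 then 1 else σ)
    (by intro i c; split_ifs <;> positivity)
    (by intro i c; split_ifs <;> positivity) (by
      intro i
      have hcs : (Real.cos θ : ℂ) ^ 2 + (Real.sin θ : ℂ) ^ 2 = 1 := by
        exact_mod_cast Real.cos_sq_add_sin_sq θ
      refine ⟨_, _, maj_real j 1 (v ^ 2) zero_le_one (by positivity) _ ?_ ?_,
        maj_phase j v θ y hv hy hy' hc hs _ ?_ ?_, ?_⟩
      · unfold D1 fz
        simp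
      · unfold D1 fz
        rw [add_zero, if_neg one_ne_zero, Complex.mul_conj, Complex.normSq_eq_norm_sq, hnz]
      · unfold D1 fz
        rw [zero_add, if_neg one_ne_zero, if_pos rfl, map_one, mul_one]
      · unfold D1 fz
        rw [oneone, if_neg one_ne_zero, if_pos rfl, one_mul, hz]
        simp only [map_mul, map_add, Complex.conj_ofReal, Complex.conj_I]
        ring
      · intro b c
        rcases z01 b with rfl | rfl <;> rcases z01 c with rfl | rfl
        · simp only [sg0, add_zero, if_true]
          rw [abs_of_nonneg (by positivity)]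
          apply le_of_eq
          rw [hM]; ring
        · simp only [sg0, zero_add, if_true, one_ne_zero, if_false]
          rw [abs_of_nonneg (by positivity), hM]
          have h3 := h1
          linarith
        · simp only [sg1, add_zero, if_true, one_ne_zero, if_false]
          rw [abs_of_nonneg]
          · rw [hM]
            have h3 := h2
            nlinarith
          · nlinarith [sq_nonneg (1 - v)]
        · simp only [sg1, oneone, if_true, one_ne_zero, if_false, mul_one]
          have h3 : |(|1 - v ^ 2| / 2 + -1 * (v * Real.sin y)) / 2| ≤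
              (|1 - v ^ 2| / 2 + v * Real.sin y) / 2 := by
            rw [abs_le]
            constructor
            · have : 0 ≤ |1 - v ^ 2| := abs_nonneg _
              linarith
            · have : 0 ≤ v * Real.sin y := by positivity
              linarith
          refine h3.trans ?_
          rw [hM]
          linarith)
  rw [S_fz, D_fz, T_scale, T_one, hnz] at hch
  refine hch.trans (le_of_eq ?_)
  ring

end Pool.Agent.Lib.MP_0430e4_lc.AR
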