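import Pool.Agent.Lib.MP_0430e4_lc.AR.Chain

/-!
# Weighted angle reduction for linear codes: the inequality
-/

set_option autoImplicit false

namespace Pool.Agent.Lib.MP_0430e4_lc.AR

open Finset
open scoped ComplexConjugate

/-- Real functions are bounded by the modulus of their Fourier coefficients. -/
theorem maj_real (j : ℕ) (p q : ℝ) (hp : 0 ≤ p) (hq : 0 ≤ q) (f : ZMod 2 → ℂ)
    (h0 : f 0 = (p : ℂ)) (h1 : f 1 = (q : ℂ)) :
    Maj j f (fun c => if c = 0 then (p + q) / 2 else |p - q| / 2) := by
  induction j generalizing p q f with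
  | zero =>
    intro c
    unfold fh
    rw [h0, h1]
    rcases z01 c with rfl | rfl
    · have : ((p : ℂ) + sg 0 * (q : ℂ)) / 2 = (((p + q) / 2 : ℝ) : ℂ) := by
        rw [sg0]; push_cast; ring
      rw [this, Complex.norm_real, Real.norm_of_nonneg (by positivity)]
      simp
    · have : ((p : ℂ) + sg 1 * (q : ℂ)) / 2 = (((p - q) / 2 : ℝ) : ℂ) := by
        rw [sg1]; push_cast; ring
      rw [this, Complex.norm_real, Real.norm_eq_abs, abs_div, abs_two]
      simp
  | succ j ih =>
    refine ⟨?_, (fun c => if c = 0 then (p ^ 2 + q ^ 2) / 2 else |p ^ 2 - q ^ 2| / 2),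
      (fun c => if c = 0 then (p * q + p * q) / 2 else |p * q - p * q| / 2), ?_, ?_, ?_⟩
    · intro c
      dsimp only
      split_ifs
      · positivity
      · positivity
    · apply ih (p ^ 2) (q ^ 2) (by positivity) (by positivity)
      · unfold D1
        rw [add_zero, h0, Complex.conj_ofReal]; push_cast; ring
      · unfold D1
        rw [add_zero, h1, Complex.conj_ofReal]; push_cast; ring
    · apply ih (p * q) (p * q) (by positivity) (by positivity)
      · unfold D1
        rw [zero_add, h0, h1, Complex.conj_ofReal]; push_cast; ring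
      · unfold D1
        rw [oneone, h0, h1, Complex.conj_ofReal]; push_cast; ring
    · intro b c
      rcases z01 b with rfl | rfl <;> rcases z01 c with rfl | rfl
      · simp only [sg0, add_zero, if_true]
        rw [abs_of_nonneg (by positivity)]
        apply le_of_eq; ring
      · simp only [sg0, zero_add, if_true, one_ne_zero, if_false, sub_self, abs_zero]
        rw [abs_div, abs_two, abs_of_nonneg (by positivity)]
        have : |p ^ 2 - q ^ 2| = (p + q) * |p - q| := by
          rw [show p ^ 2 - q ^ 2 = (p + q) * (p - q) by ring, abs_mul,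
            abs_of_nonneg (show 0 ≤ p + q by positivity)]
        rw [this]
        apply le_of_eq; ring
      · simp only [sg1, add_zero, if_true, one_ne_zero, if_false]
        rw [← sq, div_pow, sq_abs]
        rw [abs_of_nonneg]
        · apply le_of_eq; ring
        · nlinarith [sq_nonneg (p - q)]
      · simp only [sg1, oneone, if_true, one_ne_zero, if_false, sub_self, abs_zero]
        have : |p ^ 2 - q ^ 2| = (p + q) * |p - q| := by
          rw [show p ^ 2 - q ^ 2 = (p + q) * (p - q) by ring, abs_mul,
            abs_of_nonneg (show 0 ≤ p + q by positivity)]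
        rw [this, abs_of_nonneg (by positivity)]
        apply le_of_eq; ring

/-- The function `b, conj b` with `b = r e^(i φ)`. -/
theorem maj_phase (j : ℕ) (r φ u : ℝ) (hr : 0 ≤ r) (hu : 0 ≤ u) (hu' : 2 ^ j * u ≤ Real.pi / 2)
    (hc : |Real.cos (2 ^ j * φ)| = Real.cos (2 ^ j * u))
    (hs : |Real.sin (2 ^ j * φ)| = Real.sin (2 ^ j * u)) (f : ZMod 2 → ℂ)
    (h0 : f 0 = (r : ℂ) * (Real.cos φ + Real.sin φ * Complex.I))
    (h1 : f 1 = (r : ℂ) * (Real.cos φ - Real.sin φ * Complex.I)) :
    Maj j f (fun c => if c = 0 then r * Real.cos u else r * Real.sin u) := by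
  induction j generalizing r φ u f with
  | zero =>
    rw [pow_zero, one_mul, one_mul] at hc hs
    intro c
    unfold fh
    rw [h0, h1]
    rcases z01 c with rfl | rfl
    · have : ((r : ℂ) * (Real.cos φ + Real.sin φ * Complex.I) +
          sg 0 * ((r : ℂ) * (Real.cos φ - Real.sin φ * Complex.I))) / 2 =
          ((r * Real.cos φ : ℝ) : ℂ) := by
        rw [sg0]; push_cast; ring
      rw [this, Complex.norm_real, Real.norm_eq_abs, abs_mul, abs_of_nonneg hr, hc]
      simp
    · have : ((r : ℂ) * (Real.cos φ + Real.sin φ * Complex.I) +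
          sg 1 * ((r : ℂ) * (Real.cos φ - Real.sin φ * Complex.I))) / 2 =
          ((r * Real.sin φ : ℝ) : ℂ) * Complex.I := by
        rw [sg1]; push_cast; ring
      rw [this, norm_mul, Complex.norm_I, mul_one, Complex.norm_real, Real.norm_eq_abs, abs_mul,
        abs_of_nonneg hr, hs]
      simp
  | succ j ih =>
    have hu2 : u ≤ Real.pi / 2 := by
      have h2 : (1 : ℝ) ≤ 2 ^ (j + 1) := one_le_pow₀ (by norm_num)
      nlinarith
    have hu3 : 2 * u ≤ Real.pi / 2 := by
      have h2 : (1 : ℝ) ≤ 2 ^ j := one_le_pow₀ (by norm_num)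
      rw [pow_succ] at hu'
      nlinarith
    have hcos : 0 ≤ Real.cos u := Real.cos_nonneg_of_neg_pi_div_two_le_of_le (by linarith) hu2
    have hsin : 0 ≤ Real.sin u := Real.sin_nonneg_of_nonneg_of_le_pi hu (by linarith [Real.pi_pos])
    have hcs : (Real.cos φ : ℂ) ^ 2 + (Real.sin φ : ℂ) ^ 2 = 1 := by
      exact_mod_cast Real.cos_sq_add_sin_sq φ
    refine ⟨?_, (fun c => if c = 0 then (r ^ 2 + r ^ 2) / 2 else |r ^ 2 - r ^ 2| / 2),
      (fun c => if c = 0 then r ^ 2 * Real.cos (2 * u) else r ^ 2 * Real.sin (2 * u)), ?_, ?_, ?_⟩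
    · intro c
      dsimp only
      split_ifs
      · positivity
      · positivity
    · apply maj_real j (r ^ 2) (r ^ 2) (by positivity) (by positivity)
      · unfold D1
        rw [add_zero, h0]
        simp only [map_mul, map_add, Complex.conj_ofReal, Complex.conj_I]
        generalize Real.cos φ = c at hcs ⊢
        generalize Real.sin φ = s at hcs ⊢
        push_cast
        linear_combination (r : ℂ) ^ 2 * hcs - (r : ℂ) ^ 2 * (s : ℂ) ^ 2 * Complex.I_sq
      · unfold D1
        rw [add_zero, h1]
        simp only [map_mul, map_sub, Complex.conj_ofReal, Complex.conj_I]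
        generalize Real.cos φ = c at hcs ⊢
        generalize Real.sin φ = s at hcs ⊢
        push_cast
        linear_combination (r : ℂ) ^ 2 * hcs - (r : ℂ) ^ 2 * (s : ℂ) ^ 2 * Complex.I_sq
    · apply ih (r ^ 2) (-(2 * φ)) (2 * u) (by positivity) (by positivity)
      · rw [pow_succ] at hu'; linarith
      · rw [show (2 : ℝ) ^ j * -(2 * φ) = -(2 ^ (j + 1) * φ) by ring,
          show (2 : ℝ) ^ j * (2 * u) = 2 ^ (j + 1) * u by ring, Real.cos_neg, hc]
      · rw [show (2 : ℝ) ^ j * -(2 * φ) = -(2 ^ (j + 1) * φ) by ring,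
          show (2 : ℝ) ^ j * (2 * u) = 2 ^ (j + 1) * u by ring, Real.sin_neg, abs_neg, hs]
      · unfold D1
        rw [zero_add, h0, h1]
        simp only [map_mul, map_add, Complex.conj_ofReal, Complex.conj_I]
        rw [Real.cos_neg, Real.sin_neg, Real.cos_two_mul, Real.sin_two_mul]
        generalize Real.cos φ = c at hcs ⊢
        generalize Real.sin φ = s at hcs ⊢
        push_cast
        linear_combination (-(r : ℂ) ^ 2) * hcs + (r : ℂ) ^ 2 * (s : ℂ) ^ 2 * Complex.I_sq
      · unfold D1
        rw [oneone, h0, h1]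
        simp only [map_mul, map_sub, Complex.conj_ofReal, Complex.conj_I]
        rw [Real.cos_neg, Real.sin_neg, Real.cos_two_mul, Real.sin_two_mul]
        generalize Real.cos φ = c at hcs ⊢
        generalize Real.sin φ = s at hcs ⊢
        push_cast
        linear_combination (-(r : ℂ) ^ 2) * hcs + (r : ℂ) ^ 2 * (s : ℂ) ^ 2 * Complex.I_sq
    · have e1 : Real.cos (2 * u) = Real.cos u ^ 2 - Real.sin u ^ 2 := Real.cos_two_mul' u
      have e2 : Real.sin (2 * u) = 2 * Real.sin u * Real.cos u := Real.sin_two_mul u
      have e3 : Real.cos u ^ 2 + Real.sin u ^ 2 = 1 := Real.cos_sq_add_sin_sq u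
      intro b c
      rcases z01 b with rfl | rfl <;> rcases z01 c with rfl | rfl
      · simp only [sg0, add_zero, if_true]
        have : ((r ^ 2 + r ^ 2) / 2 + 1 * (r ^ 2 * Real.cos (2 * u))) / 2 =
            r * Real.cos u * (r * Real.cos u) := by
          rw [e1]; linear_combination (r ^ 2 / 2) * (1 - e3)
        rw [this, abs_of_nonneg (by positivity)]
      · simp only [sg0, zero_add, if_true, one_ne_zero, if_false, sub_self, abs_zero]
        have : (0 / 2 + 1 * (r ^ 2 * Real.sin (2 * u))) / 2 =
            r * Real.cos u * (r * Real.sin u) := by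
          rw [e2]; ring
        rw [this, abs_of_nonneg (by positivity)]
      · simp only [sg1, add_zero, if_true, one_ne_zero, if_false]
        have : ((r ^ 2 + r ^ 2) / 2 + -1 * (r ^ 2 * Real.cos (2 * u))) / 2 =
            r * Real.sin u * (r * Real.sin u) := by
          rw [e1]; linear_combination (r ^ 2 / 2) * (1 - e3)
        rw [this, abs_of_nonneg (by positivity)]
      · simp only [sg1, oneone, if_true, one_ne_zero, if_false, sub_self, abs_zero]
        have : (0 / 2 + -1 * (r ^ 2 * Real.sin (2 * u))) / 2 =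
            -(r * Real.sin u * (r * Real.cos u)) := by
          rw [e2]; ring
        rw [this, abs_neg, abs_of_nonneg (by positivity)]

end Pool.Agent.Lib.MP_0430e4_lc.AR
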