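import Pool.Agent.Lib.MP_0430e4_lc.AR.Ineq

/-!
# Linear codes have small weight enumerators at all angles which are not dyadic
-/

set_option autoImplicit false

namespace Pool.Agent.Lib.MP_0430e4_lc.AR

open Finset Filter Topology
open scoped ComplexConjugate

/-- The distance of `2^j arg z` to `π ℤ`, divided by `2^j`. -/
noncomputable def yy (j : ℕ) (z : ℂ) : ℝ :=
  Real.arccos (|(z ^ 2 ^ j).re| / ‖z‖ ^ 2 ^ j) / 2 ^ j

theorem re_div (j : ℕ) {z : ℂ} (hz : z ≠ 0) :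
    (z ^ 2 ^ j).re / ‖z‖ ^ 2 ^ j = Real.cos (2 ^ j * z.arg) := by
  have h1 : z ^ 2 ^ j = ((‖z‖ ^ 2 ^ j : ℝ) : ℂ) *
      (Real.cos (2 ^ j * z.arg) + Real.sin (2 ^ j * z.arg) * Complex.I) := by
    conv_lhs => rw [← Complex.norm_mul_cos_add_sin_mul_I z]
    rw [mul_pow, Complex.cos_add_sin_mul_I_pow]
    push_cast
    rfl
  have h2 : 0 < ‖z‖ ^ 2 ^ j := pow_pos (norm_pos_iff.2 hz) _
  rw [h1, Complex.re_ofReal_mul]
  simp only [Complex.add_re, Complex.ofReal_re, Complex.mul_re, Complex.ofReal_im, Complex.I_re,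
    Complex.I_im, mul_zero, mul_one, sub_self, add_zero]
  field_simp

theorem im_div (j : ℕ) {z : ℂ} (hz : z ≠ 0) :
    (z ^ 2 ^ j).im / ‖z‖ ^ 2 ^ j = Real.sin (2 ^ j * z.arg) := by
  have h1 : z ^ 2 ^ j = ((‖z‖ ^ 2 ^ j : ℝ) : ℂ) *
      (Real.cos (2 ^ j * z.arg) + Real.sin (2 ^ j * z.arg) * Complex.I) := by
    conv_lhs => rw [← Complex.norm_mul_cos_add_sin_mul_I z]
    rw [mul_pow, Complex.cos_add_sin_mul_I_pow]
    push_cast
    rfl
  have h2 : 0 < ‖z‖ ^ 2 ^ j := pow_pos (norm_pos_iff.2 hz) _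
  rw [h1, Complex.im_ofReal_mul]
  simp only [Complex.add_im, Complex.ofReal_re, Complex.mul_im, Complex.ofReal_im, Complex.I_re,
    Complex.I_im, mul_zero, mul_one, zero_add, add_zero]
  field_simp

theorem yy_eq (j : ℕ) {z : ℂ} (hz : z ≠ 0) :
    2 ^ j * yy j z = Real.arccos |Real.cos (2 ^ j * z.arg)| := by
  unfold yy
  have h2 : 0 < ‖z‖ ^ 2 ^ j := pow_pos (norm_pos_iff.2 hz) _
  rw [← re_div j hz, abs_div, abs_of_pos h2]
  field_simp

theorem yy_nonneg (j : ℕ) (z : ℂ) : 0 ≤ yy j z := div_nonneg (Real.arccos_nonneg _) (by positivity)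

theorem yy_le (j : ℕ) {z : ℂ} (hz : z ≠ 0) : 2 ^ j * yy j z ≤ Real.pi / 2 := by
  rw [yy_eq j hz]
  exact Real.arccos_le_pi_div_two.2 (abs_nonneg _)

theorem cos_yy (j : ℕ) {z : ℂ} (hz : z ≠ 0) :
    |Real.cos (2 ^ j * z.arg)| = Real.cos (2 ^ j * yy j z) := by
  rw [yy_eq j hz, Real.cos_arccos]
  · linarith [abs_nonneg (Real.cos (2 ^ j * z.arg))]
  · exact Real.abs_cos_le_one _

theorem sin_yy (j : ℕ) {z : ℂ} (hz : z ≠ 0) :
    |Real.sin (2 ^ j * z.arg)| = Real.sin (2 ^ j * yy j z) := by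
  rw [yy_eq j hz, Real.sin_arccos, sq_abs, Real.abs_sin_eq_sqrt_one_sub_cos_sq]

theorem yy_pos (j : ℕ) {z : ℂ} (hz : z ≠ 0) (h : (z ^ 2 ^ j).im ≠ 0) : 0 < yy j z := by
  rcases (yy_nonneg j z).eq_or_lt with h1 | h1
  · exfalso
    have h2 := sin_yy j hz
    rw [← h1, mul_zero, Real.sin_zero, abs_eq_zero, ← im_div j hz] at h2
    have h3 : 0 < ‖z‖ ^ 2 ^ j := pow_pos (norm_pos_iff.2 hz) _
    rcases div_eq_zero_iff.1 h2 with h4 | h4
    · exact h h4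
    · exact h3.ne' h4
  · exact h1

theorem yy_cont (j : ℕ) {z : ℂ} (hz : z ≠ 0) : ContinuousAt (yy j) z := by
  unfold yy
  have h3 : ‖z‖ ^ 2 ^ j ≠ 0 := (pow_pos (norm_pos_iff.2 hz) _).ne'
  have h1 : ContinuousAt (fun z : ℂ => |(z ^ 2 ^ j).re| / ‖z‖ ^ 2 ^ j) z := by
    have hA : ContinuousAt (fun z : ℂ => |(z ^ 2 ^ j).re|) z := by fun_prop
    have hB : ContinuousAt (fun z : ℂ => ‖z‖ ^ 2 ^ j) z := by fun_prop
    exact hA.div hB h3
  exact (Real.continuous_arccos.continuousAt.comp h1).div_const _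

variable {n : ℕ}

/-- The weight enumerator on the positive axis. -/
theorem enum_le {K : Finset (Wd n)} (hK : IsLin K) {C : Finset (Wd n)} (hC : IsDual K C)
    {v σ : ℝ} (hv : 0 ≤ v) (h : |1 - v| ≤ σ * (1 + v)) :
    ∑ x ∈ K, v ^ hammingNorm x ≤
      K.card * (((1 + v) / 2) ^ n * ∑ c ∈ C, σ ^ hammingNorm c) := by
  have h1 : ∑ x ∈ K, v ^ hammingNorm x =
      K.card * ∑ c ∈ C, ∏ i, fh (fun b : ZMod 2 => if b = 0 then (1 : ℝ) else v) (c i) := by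
    rw [← poisson hK hC (fun (_ : Fin n) (b : ZMod 2) => if b = 0 then (1 : ℝ) else v)]
    exact Finset.sum_congr rfl fun x _ => (prod_ite_pow v x).symm
  rw [h1, ← T_scale]
  apply mul_le_mul_of_nonneg_left _ (Nat.cast_nonneg _)
  unfold T
  apply Finset.sum_le_sum
  intro c _
  refine (le_abs_self _).trans ?_
  rw [Finset.abs_prod]
  apply Finset.prod_le_prod
  · intro i _; exact abs_nonneg _
  · intro i _
    unfold fh
    rcases z01 (c i) with hc | hc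
    · rw [hc]
      simp only [sg0, if_true, one_ne_zero, if_false, one_mul]
      rw [abs_of_nonneg (by positivity)]
    · rw [hc]
      simp only [sg1, if_true, one_ne_zero, if_false]
      rw [abs_div, abs_two]
      have : |1 + -1 * v| = |1 - v| := by congr 1; ring
      rw [this]
      linarith

/-- The conclusion of the angle reduction for a single point. -/
theorem single {K : Finset (Wd n)} (hK : IsLin K) {C : Finset (Wd n)} (hC : IsDual K C) (j : ℕ)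
    {z : ℂ} (hz : z ≠ 0) {σ g : ℝ} (hσ : 0 ≤ σ)
    (h0 : |1 - ‖z‖| ≤ σ * (1 + ‖z‖))
    (h1 : |1 - ‖z‖ ^ 2| + 2 * ‖z‖ * Real.sin (yy j z) ≤
      σ * (1 + ‖z‖ ^ 2 + 2 * ‖z‖ * Real.cos (yy j z)))
    (h2 : 1 + ‖z‖ ^ 2 - 2 * ‖z‖ * Real.cos (yy j z) ≤
      σ ^ 2 * (1 + ‖z‖ ^ 2 + 2 * ‖z‖ * Real.cos (yy j z)))
    (hg : 1 + ‖z‖ ^ 2 + 2 * ‖z‖ * Real.cos (yy j z) ≤ g * (1 + ‖z‖) ^ 2) :
    ‖∑ x ∈ K, z ^ hammingNorm x‖ ^ 2 ^ (j + 1) ≤
      (K.card * (((1 + ‖z‖) / 2) ^ n * ∑ c ∈ C, σ ^ hammingNorm c)) ^ 2 ^ (j + 1) * g ^ n := by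
  set v := ‖z‖ with hv
  have hv0 : 0 < v := norm_pos_iff.2 hz
  have h3 := angle hK hC j v z.arg (yy j z) σ hv0.le (yy_nonneg j z) (yy_le j hz) (cos_yy j hz)
    (sin_yy j hz) hσ h1 h2
  have h4 : (v : ℂ) * (Real.cos z.arg + Real.sin z.arg * Complex.I) = z := by
    rw [hv, Complex.ofReal_cos, Complex.ofReal_sin]
    exact Complex.norm_mul_cos_add_sin_mul_I z
  rw [h4] at h3
  have h5 := enum_le hK hC hv0.le h0
  have hW : 0 ≤ ∑ c ∈ C, σ ^ hammingNorm c := Finset.sum_nonneg fun c _ => pow_nonneg hσ _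
  have hD : 0 ≤ ∑ x ∈ K, v ^ hammingNorm x := Finset.sum_nonneg fun c _ => pow_nonneg hv0.le _
  obtain ⟨m, hm⟩ : ∃ m, 2 ^ (j + 1) = m + 2 := by
    have : 2 ≤ 2 ^ (j + 1) := by
      calc 2 = 2 ^ 1 := by norm_num
        _ ≤ 2 ^ (j + 1) := Nat.pow_le_pow_right (by norm_num) (by omega)
    exact ⟨2 ^ (j + 1) - 2, by omega⟩
  rw [hm, Nat.add_sub_cancel] at h3
  rw [hm]
  refine h3.trans ?_
  have hy2 : yy j z ≤ Real.pi / 2 := by
    have h3 : (1 : ℝ) ≤ 2 ^ j := one_le_pow₀ (by norm_num)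
    have := yy_le j hz
    nlinarith [yy_nonneg j z]
  have hcos : 0 ≤ Real.cos (yy j z) :=
    Real.cos_nonneg_of_neg_pi_div_two_le_of_le (by linarith [yy_nonneg j z]) hy2
  have h6 : (∑ x ∈ K, v ^ hammingNorm x) ^ m ≤
      (K.card * (((1 + v) / 2) ^ n * ∑ c ∈ C, σ ^ hammingNorm c)) ^ m :=
    pow_le_pow_left₀ hD h5 _
  have h7 : ((1 + v ^ 2 + 2 * v * Real.cos (yy j z)) / 4) ^ n ≤ (((1 + v) / 2) ^ n) ^ 2 * g ^ n := by
    rw [← pow_mul, mul_comm n 2, pow_mul, ← mul_pow]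
    apply pow_le_pow_left₀ (by positivity)
    linarith
  have hg0 : 0 ≤ g ^ n := by
    have : 0 ≤ g * (1 + v) ^ 2 := by
      refine le_trans ?_ hg
      positivity
    exact pow_nonneg (nonneg_of_mul_nonneg_left this (by positivity)) n
  set W := ∑ c ∈ C, σ ^ hammingNorm c
  set P := ((1 + v) / 2) ^ n
  have hP : 0 ≤ P := by positivity
  calc _ ≤ (K.card * (P * W)) ^ m * ((K.card : ℝ) ^ 2 * (P ^ 2 * g ^ n * W ^ 2)) := by
        apply mul_le_mul h6 _ (by positivity) (by positivity)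
        apply mul_le_mul_of_nonneg_left _ (by positivity)
        exact mul_le_mul_of_nonneg_right h7 (by positivity)
    _ = (K.card * (P * W)) ^ (m + 2) * g ^ n := by ring

/-- **Weight enumerators of linear codes at angles which are not dyadic.** If the weight
enumerator of the dual code is at most `2^(o(n))` at `v1`, the weight enumerator of the code is
exponentially smaller than the trivial bound near every `z0` whose angle is not a dyadic multiple of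
`π` and whose modulus is so near to 1 that `|1 - ‖z0‖| < v1 (1 + ‖z0‖)`. -/
theorem str (v1 : ℝ) (z0 : ℂ) (h0 : 0 < v1) (hv : |1 - ‖z0‖| < v1 * (1 + ‖z0‖))
    (hd : ∀ j : ℕ, (z0 ^ 2 ^ j).im ≠ 0) :
    ∃ r > 0, ∃ γ > 0, ∀ (n : ℕ) (K C : Finset (Wd n)), IsLin K → IsDual K C →
      ∀ z : ℂ, ‖z - z0‖ < r →
        ‖∑ x ∈ K, z ^ hammingNorm x‖ ≤
          Real.exp (-(γ * n)) * (K.card * (((1 + ‖z‖) / 2) ^ n * ∑ c ∈ C, v1 ^ hammingNorm c)) := by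
  have hz0 : z0 ≠ 0 := by
    rintro rfl
    have := hd 0
    simp at this
  set v := ‖z0‖ with hvd
  have hvp : 0 < v := norm_pos_iff.2 hz0
  -- the two conditions for small angles
  have hA : ∀ᶠ y : ℝ in 𝓝 0, |1 - v ^ 2| + 2 * v * Real.sin y < v1 * (1 + v ^ 2 + 2 * v * Real.cos y) := by
    have hc1 : ContinuousAt (fun y : ℝ => |1 - v ^ 2| + 2 * v * Real.sin y) 0 := by fun_prop
    have hc2 : ContinuousAt (fun y : ℝ => v1 * (1 + v ^ 2 + 2 * v * Real.cos y)) 0 := by fun_prop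
    apply hc1.eventually_lt hc2
    simp only [Real.sin_zero, Real.cos_zero, mul_zero, add_zero, mul_one]
    have h1 : |1 - v ^ 2| = |1 - v| * (1 + v) := by
      rw [show 1 - v ^ 2 = (1 - v) * (1 + v) by ring, abs_mul,
        abs_of_pos (show (0 : ℝ) < 1 + v by linarith)]
    rw [h1]
    nlinarith
  have hB : ∀ᶠ y : ℝ in 𝓝 0, 1 + v ^ 2 - 2 * v * Real.cos y < v1 ^ 2 * (1 + v ^ 2 + 2 * v * Real.cos y) := by
    have hc1 : ContinuousAt (fun y : ℝ => 1 + v ^ 2 - 2 * v * Real.cos y) 0 := by fun_prop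
    have hc2 : ContinuousAt (fun y : ℝ => v1 ^ 2 * (1 + v ^ 2 + 2 * v * Real.cos y)) 0 := by
      fun_prop
    apply hc1.eventually_lt hc2
    simp only [Real.cos_zero, mul_one]
    have h1 : |1 - v| ^ 2 < (v1 * (1 + v)) ^ 2 := by
      apply pow_lt_pow_left₀ hv (abs_nonneg _)
      norm_num
    rw [sq_abs] at h1
    nlinarith
  obtain ⟨δ, hδ, hδ'⟩ := Metric.eventually_nhds_iff.1 (hA.and hB)
  obtain ⟨j, hj⟩ : ∃ j : ℕ, yy j z0 < δ := by
    obtain ⟨j, hj⟩ := pow_unbounded_of_one_lt (Real.pi / 2 / δ) (one_lt_two)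
    refine ⟨j, ?_⟩
    have h1 := yy_le j hz0
    rw [div_lt_iff₀ hδ] at hj
    have h2 : (2 : ℝ) ^ j * yy j z0 < 2 ^ j * δ := lt_of_le_of_lt h1 hj
    exact lt_of_mul_lt_mul_left h2 (by positivity)
  obtain ⟨hA0, hB0⟩ := hδ' (y := yy j z0) (by
    rw [Real.dist_eq, sub_zero, abs_of_nonneg (yy_nonneg j z0)]; exact hj)
  have hyc := yy_cont j hz0
  have hnc : ContinuousAt (fun z : ℂ => ‖z‖) z0 := continuous_norm.continuousAt
  -- the gain
  have hypos := yy_pos j hz0 (hd j)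
  have hy2 : yy j z0 ≤ Real.pi / 2 := by
    have h3 : (1 : ℝ) ≤ 2 ^ j := one_le_pow₀ (by norm_num)
    have := yy_le j hz0
    nlinarith [yy_nonneg j z0]
  have hcos1 : Real.cos (yy j z0) < 1 := by
    have := Real.cos_lt_cos_of_nonneg_of_le_pi (le_refl 0) (by linarith [Real.pi_pos]) hypos
    rwa [Real.cos_zero] at this
  have hcos0 : 0 ≤ Real.cos (yy j z0) :=
    Real.cos_nonneg_of_neg_pi_div_two_le_of_le (by linarith [yy_nonneg j z0]) hy2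
  obtain ⟨g, hg0, hg1, hgg⟩ : ∃ g : ℝ, 0 < g ∧ g < 1 ∧
      1 + v ^ 2 + 2 * v * Real.cos (yy j z0) < g * (1 + v) ^ 2 := by
    have h1 : 1 + v ^ 2 + 2 * v * Real.cos (yy j z0) < 1 * (1 + v) ^ 2 := by nlinarith
    have h2 : 0 < (1 + v) ^ 2 := by positivity
    have h3 : (1 + v ^ 2 + 2 * v * Real.cos (yy j z0)) / (1 + v) ^ 2 < 1 := by
      rw [div_lt_iff₀ h2]; exact h1
    obtain ⟨g, hg, hg'⟩ := exists_between h3
    refine ⟨g, lt_of_le_of_lt (by positivity) hg, hg', ?_⟩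
    rwa [div_lt_iff₀ h2] at hg
  have e0 : ∀ᶠ z in 𝓝 z0, z ≠ 0 := isOpen_ne.eventually_mem hz0
  have e1 : ∀ᶠ z : ℂ in 𝓝 z0, |1 - ‖z‖| < v1 * (1 + ‖z‖) := by
    have hc1 : ContinuousAt (fun z : ℂ => |1 - ‖z‖|) z0 := by fun_prop
    have hc2 : ContinuousAt (fun z : ℂ => v1 * (1 + ‖z‖)) z0 := by fun_prop
    exact hc1.eventually_lt hc2 hv
  have e2 : ∀ᶠ z : ℂ in 𝓝 z0, |1 - ‖z‖ ^ 2| + 2 * ‖z‖ * Real.sin (yy j z) <
      v1 * (1 + ‖z‖ ^ 2 + 2 * ‖z‖ * Real.cos (yy j z)) := by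
    have hc1 : ContinuousAt (fun z : ℂ => |1 - ‖z‖ ^ 2| + 2 * ‖z‖ * Real.sin (yy j z)) z0 := by
      fun_prop
    have hc2 : ContinuousAt (fun z : ℂ => v1 * (1 + ‖z‖ ^ 2 + 2 * ‖z‖ * Real.cos (yy j z))) z0 := by
      fun_prop
    exact hc1.eventually_lt hc2 hA0
  have e3 : ∀ᶠ z : ℂ in 𝓝 z0, 1 + ‖z‖ ^ 2 - 2 * ‖z‖ * Real.cos (yy j z) <
      v1 ^ 2 * (1 + ‖z‖ ^ 2 + 2 * ‖z‖ * Real.cos (yy j z)) := by
    have hc1 : ContinuousAt (fun z : ℂ => 1 + ‖z‖ ^ 2 - 2 * ‖z‖ * Real.cos (yy j z)) z0 := by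
      fun_prop
    have hc2 : ContinuousAt (fun z : ℂ => v1 ^ 2 * (1 + ‖z‖ ^ 2 + 2 * ‖z‖ * Real.cos (yy j z))) z0 := by
      fun_prop
    exact hc1.eventually_lt hc2 hB0
  have e4 : ∀ᶠ z : ℂ in 𝓝 z0, 1 + ‖z‖ ^ 2 + 2 * ‖z‖ * Real.cos (yy j z) < g * (1 + ‖z‖) ^ 2 := by
    have hc1 : ContinuousAt (fun z : ℂ => 1 + ‖z‖ ^ 2 + 2 * ‖z‖ * Real.cos (yy j z)) z0 := by
      fun_prop
    have hc2 : ContinuousAt (fun z : ℂ => g * (1 + ‖z‖) ^ 2) z0 := by fun_prop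
    exact hc1.eventually_lt hc2 hgg
  obtain ⟨r, hr, hr'⟩ := Metric.eventually_nhds_iff.1 (e0.and (e1.and (e2.and (e3.and e4))))
  refine ⟨r, hr, -Real.log g / 2 ^ (j + 1), div_pos (neg_pos.2 (Real.log_neg hg0 hg1)) (by positivity),
    fun n K C hK hC z hz => ?_⟩
  obtain ⟨f0, f1, f2, f3, f4⟩ := hr' (y := z) (by rwa [dist_eq_norm])
  have h5 := single hK hC j f0 h0.le f1.le f2.le f3.le f4.le
  have hW : 0 ≤ ∑ c ∈ C, v1 ^ hammingNorm c := Finset.sum_nonneg fun c _ => pow_nonneg h0.le _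
  have h6 : g ^ n = Real.exp (-(-Real.log g / 2 ^ (j + 1) * n)) ^ 2 ^ (j + 1) := by
    rw [← Real.exp_nat_mul, ← Real.rpow_natCast g n, Real.rpow_def_of_pos hg0]
    congr 1
    push_cast
    field_simp
  rw [h6, ← mul_pow, mul_comm] at h5
  exact (pow_le_pow_iff_left₀ (norm_nonneg _) (by positivity) (by positivity)).1 h5

end Pool.Agent.Lib.MP_0430e4_lc.AR
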